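import Pool.Agent.H24.BZ.Targets
import Pool.Agent.H24.MCL.TLL

/-!
Project BZ (`MP_c59857_nt`): assembly of the local gap for almost all `N`.
-/

set_option autoImplicit false

open Filter Topology Finset
open scoped Nat

namespace Pool.Agent.H24.BZ

open Pool.Agent.H24.MR (lam)
open Pool.Agent.H67.AG (κ₀)
open Pool.Agent.H28.MCL (Bad Bd ind)
open Pool.Agent.H24.MCL (lam_val prod_pm)

theorem Nv_mono {f : ℕ → ℝ} {Q c X : ℕ} {δ θ ζ ζ' : ℝ} {τ : ℕ → ℤ} (h : ζ ≤ ζ')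
    (hN : Nv f Q c δ θ ζ X τ) : Nv f Q c δ θ ζ' X τ :=
  ⟨hN.1, hN.2.1.trans (mul_le_mul_of_nonneg_right h (Nat.cast_nonneg X)), hN.2.2⟩

theorem tlb (hL : ∀ (k : ℕ) (δ : ℝ), 0 < k → 0 < δ → δ ≤ 1 → LocW k δ (κ₀ * δ ^ 2 / 1024))
    (hS : T_VSB) (hK : T_VBK) (hG : T_VGL) (hT : T_VST) : T_TLB := by
  classical
  have hκ0 : (0 : ℝ) < κ₀ := by unfold κ₀; norm_num
  refine ⟨κ₀ / (1024 * 4 ^ 2), by positivity, ?_⟩
  intro k Q c β δ ρ hk hQ hQe hβ hδ hδ1 hρ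
  obtain ⟨κ, hκ⟩ : ∃ κ : ℝ, κ = κ₀ / (1024 * 4 ^ 2) * δ ^ 2 := ⟨_, rfl⟩
  have hκp : 0 < κ := by rw [hκ]; positivity
  rw [← hκ]
  have he : κ₀ * (δ / 4) ^ 2 / 1024 = κ := by rw [hκ]; ring
  have hLW := hL k (δ / 4) hk (by linarith) (by linarith)
  rw [he] at hLW
  obtain ⟨M, wt, h0, h1, hB⟩ := hLW Q c β hQ hQe hβ (ρ / 8) (by positivity)
  by_contra hcon
  push Not at hcon
  obtain ⟨f, hf⟩ : ∃ f : ℕ → ℝ, f = fun y => ∏ i, lam (y + β i) := ⟨_, rfl⟩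
  have hfv : ∀ n, f n = 1 ∨ f n = -1 := fun n => by
    rw [hf]
    exact prod_pm _ fun i => lam_val _
  rw [← hf] at hcon
  have hQR : (0 : ℝ) < Q := by exact_mod_cast hQ
  obtain ⟨h₁, hh₁⟩ := hK f κ δ Q c hfv hκp hδ hQ
  obtain ⟨A, hA⟩ : ∃ A : ℕ, ∀ m ∈ M, m ≤ A := ⟨M.sup id, fun m hm => Finset.le_sup (f := id) hm⟩
  obtain ⟨U, N, B, τ, hBM, hGB, hGl⟩ := hG f Q c (δ / 2) (κ / Q) M
    (fun B => ρ / 8 < ∑ m ∈ B, wt m) (by positivity) (by positivity) (by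
      intro i N₀
      obtain ⟨h, hh, hnot⟩ := hcon (max h₁ (4 * (i + 1)))
      obtain ⟨X₀, hX₀⟩ := hh₁ h ((le_max_left _ _).trans hh)
      by_contra hno
      push Not at hno
      apply hnot
      refine hS _ ρ M wt (max N₀ (X₀ * 2 ^ (A + 1))) hρ h0 h1 fun N hN => ?_
      by_contra hlt
      push Not at hlt
      obtain ⟨m, hm, hmτ⟩ := hno N ((le_max_left _ _).trans hN)
        (M.filter fun m => Av (ind (Bad f κ Q c h)) δ (N / 2 ^ (m + 1))) (filter_subset _ _)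
        (by linarith)
      rw [mem_filter] at hm
      have hX : X₀ ≤ N / 2 ^ (m + 1) := by
        rw [Nat.le_div_iff_mul_le (by positivity)]
        refine le_trans ?_ ((le_max_right _ _).trans hN)
        exact Nat.mul_le_mul_left _ (Nat.pow_le_pow_right (by norm_num) (by
          have := hA m hm.1
          omega))
      obtain ⟨τ, hτ⟩ := hX₀ _ hX hm.2
      refine hmτ τ (Nv_mono ?_ hτ)
      have h3 : 4 * (i + 1) ≤ h := (le_max_right _ _).trans hh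
      have h3' : (4 : ℝ) * (i + 1) ≤ h := by exact_mod_cast h3
      have hi : (0 : ℝ) < (i : ℝ) + 1 := by positivity
      rw [div_le_div_iff₀ (by linarith [mul_pos (by norm_num : (0:ℝ) < 4) hi]) hi]
      linarith)
  rw [hf] at hGl
  obtain ⟨σ, hσ⟩ := hT k Q c β (δ / 2) κ B U N τ hQ (by positivity) hκp.le hGl
  have hd : δ / 2 / 2 = δ / 4 := by ring
  rw [hd] at hσ
  have := hB U N σ B hBM hσ
  have hGB' : ρ / 8 < ∑ m ∈ B, wt m := hGB
  linarith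

end Pool.Agent.H24.BZ
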