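import Pool.Agent.H24.BZ.Defs

/-!
Project BZ (`MP_c59857_nt`): a uniform local gap for almost all `N` (Banach density zero).
Statements of the modules.
-/

set_option autoImplicit false

open MeasureTheory ProbabilityTheory Filter Topology Finset
open scoped Nat ENNReal

namespace Pool.Agent.H24.BZ

open Pool.Agent.H24.MR (lam dens FinAddInv)
open Pool.Agent.H24.T2 (Pset rel)
open Pool.Agent.H80.AG (Fam)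
open Pool.Agent.H67.AG (κ₀ Inv)
open Pool.Agent.H28.MCL (Bad Bd ind lc)
open Pool.Agent.H24.UG (Om shM DD FL SN FC SC RS Cx)

/-! ### the local statement with weights -/

/-- VNC: the atoms which decouple, for all the scales at once (adaptation of
`Pool.Agent.H24.UG.pf_UNC`, from `T_UNS`, `T_UNA`). -/
def T_VNC : Prop := ∀ (k Q c : ℕ) (β : Fin k → ℕ) (ρ : ℝ) (w i : ℕ), 0 < Q → 0 < ρ →
  ∃ (M : Finset ℕ) (wt : ℕ → ℝ),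
    (∀ m ∈ M, i ≤ m ∧ (Pset (Q * w !) m).Nonempty ∧ 0 ≤ wt m) ∧ ∑ m ∈ M, wt m = 1 ∧
    ∀ (μ : Set ℕ → ℝ) (σ : ℕ → ℕ → ℤ), FinAddInv μ →
      (∀ p y, σ p y = 0 ∨ σ p y = 1 ∨ σ p y = -1) →
      (∀ p : ℕ, p.Prime → p ≡ 1 [MOD Q] → μ {y | σ p y ≠ σ p (y + 1)} = 0) →
      ∃ fl : ℕ → ℕ → Bool, (∀ m ∈ M, μ {y | fl m y ≠ fl m (y + 1)} = 0) ∧
        ∑ m ∈ M, wt m * μ {y | fl m y = false} ≤ ρ ∧
        ∀ m ∈ M, ∑ p ∈ Pset (Q * w !) m,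
          μ {y | fl m y = true ∧ σ p y ≠ 0 ∧ y ≡ c [MOD Q] ∧ rel β lam p y ≠ (σ p y : ℝ)} ≤
          10 * ∑ p ∈ Pset (Q * w !) m,
            p * μ {y | y ≡ c [MOD Q] ∧ p ∣ y ∧ σ p y ≠ 0 ∧ rel β lam p y ≠ (σ p y : ℝ)} +
          2 / (((i : ℝ) + 1) * Q) * (Pset (Q * w !) m).card

/-- VAR: the families which come from a failure of the local statement (adaptation of
`Pool.Agent.H41.AG.pf_ARR`, from `T_VNC`, `T_MMX`). -/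
def T_VAR : Prop := ∀ (k : ℕ) (δ η : ℝ), 0 < δ → δ ≤ 1 → 0 < η → ¬ LocW k δ η →
  ∃ (Q c : ℕ) (β : Fin k → ℕ) (ρ : ℝ) (Mf : ℕ → ℕ → Finset ℕ), 0 < Q ∧ Even Q ∧
    Function.Injective β ∧ 0 < ρ ∧
    (∀ w i, ∀ m ∈ Mf w i, i ≤ m ∧ (Pset (Q * w !) m).Nonempty) ∧
    ∀ J : ℕ, ∃ (F : Fam) (m : ℕ → ℕ → ℕ) (σ : Fin F.n → ℕ → ℕ → ℤ)
      (fl : Fin F.n → ℕ → ℕ → ℕ → Bool) (af : ℕ → ℕ → ℝ),
      FamP Q c β δ η ρ Mf J F m σ fl af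

/-- VSY: the measure on the symbolic space (adaptation of `Pool.Agent.H41.AG.pf_SYS`, from
`T_VAR`, `Pool.Agent.H80.AG.T_UNI`, `Pool.Agent.H24.UG.T_UPT`). -/
def T_VSY : Prop := ∀ (k : ℕ) (δ η : ℝ), 0 < δ → δ ≤ 1 → 0 < η → ¬ LocW k δ η →
  ∃ (Q : ℕ) (_ : NeZero Q) (c : ℕ) (β : Fin k → ℕ) (ρ : ℝ) (m : ℕ → ℕ → ℕ) (af : ℕ → ℕ → ℝ)
    (P : Measure (Om Q)), Even Q ∧ Function.Injective β ∧ 0 < ρ ∧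
    SysW Q β (c : ZMod Q) δ η ρ m af P

/-- VR1: ergodic components (copy of UR1). -/
def T_VR1 : Prop := ∀ (Q n : ℕ) [NeZero Q] (β : Fin n → ℕ) (c : ZMod Q) (δ η ρ : ℝ)
  (m : ℕ → ℕ → ℕ) (af : ℕ → ℕ → ℝ) (P : Measure (Om Q)), SysW Q β c δ η ρ m af P →
  ∃ κ : Kernel (Om Q) (Om Q), IsMarkovKernel κ ∧ (∀ B, MeasurableSet B → P B = ∫⁻ ω, κ ω B ∂P) ∧
    ∀ᵐ ω ∂P, Ergodic (shM Q) (κ ω) ∧ (∀ W, 0 < W → (κ ω)[DD Q | Inv (shM Q) W] =ᵐ[κ ω] 0) ∧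
      (∀ w i, κ ω (FC Q w i) = 0) ∧ ∀ p : ℕ, p.Prime → p ≡ 1 [MOD Q] → κ ω (SC Q p) = 0

/-- VR2: a component with many signs, on which the relation holds. -/
def T_VR2 : Prop := ∀ (Q n : ℕ) [NeZero Q] (β : Fin n → ℕ) (c : ZMod Q) (δ η ρ : ℝ)
  (m : ℕ → ℕ → ℕ) (af : ℕ → ℕ → ℝ) (P : Measure (Om Q)), 0 < δ → δ ≤ 1 → 0 < η → 0 < ρ →
  SysW Q β c δ η ρ m af P →
  ∀ κ : Kernel (Om Q) (Om Q), IsMarkovKernel κ → (∀ B, MeasurableSet B → P B = ∫⁻ ω, κ ω B ∂P) →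
    (∀ᵐ ω ∂P, Ergodic (shM Q) (κ ω) ∧ ∀ w i, κ ω (FC Q w i) = 0) →
    ∀ S : Set (Om Q), (∀ᵐ ω ∂P, ω ∈ S) →
    ∃ ω ∈ S, ∃ᶠ w in atTop, ∃ᶠ i in atTop,
      δ / 4 * (Pset (Q * w !) (m w i)).card ≤
        ∑ p ∈ Pset (Q * w !) (m w i), (κ ω).real (FL Q w i ∩ SN Q p) ∧
      ∑ p ∈ Pset (Q * w !) (m w i), (κ ω).real (FL Q w i ∩ RS Q β c p) ≤
        40 * η / Q * ∑ p ∈ Pset (Q * w !) (m w i), (κ ω).real (FL Q w i ∩ SN Q p)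

/-- VCT: the data (adaptation of `Pool.Agent.H38.UG.pf_UCT`). -/
def T_VCT : Prop := ∀ (Q k : ℕ) [NeZero Q] (β : Fin (k + 1) → ℕ) (c : ZMod Q) (δ η : ℝ)
  (m : ℕ → ℕ → ℕ) (ν : Measure (Om Q)), Even Q → Function.Injective β → 0 < δ → δ ≤ 1 → 0 < η →
  1024 * η ≤ κ₀ * δ ^ 2 → IsProbabilityMeasure ν → Ergodic (shM Q) ν →
  (∀ W, 0 < W → ν[DD Q | Inv (shM Q) W] =ᵐ[ν] 0) → (∀ w i, ν (FC Q w i) = 0) →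
  (∀ p : ℕ, p.Prime → p ≡ 1 [MOD Q] → ν (SC Q p) = 0) →
  (∀ w i, i ≤ m w i ∧ (Pset (Q * w !) (m w i)).Nonempty) →
  (∃ᶠ w in atTop, ∃ᶠ i in atTop,
    δ / 4 * (Pset (Q * w !) (m w i)).card ≤
      ∑ p ∈ Pset (Q * w !) (m w i), ν.real (FL Q w i ∩ SN Q p) ∧
    ∑ p ∈ Pset (Q * w !) (m w i), ν.real (FL Q w i ∩ RS Q β c p) ≤
      40 * η / Q * ∑ p ∈ Pset (Q * w !) (m w i), ν.real (FL Q w i ∩ SN Q p)) →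
  Nonempty Cx

/-! ### the front end -/

open Classical in
/-- VSB: from weighted averages over `N / 2 ^ (m + 1)` to the upper logarithmic Banach density
(`Pool.Agent.H66.AAS.banach` for one `ρ`). -/
def T_VSB : Prop := ∀ (bad : ℕ → Prop) (ρ : ℝ) (M : Finset ℕ) (wt : ℕ → ℝ) (N₀ : ℕ), 0 < ρ →
  (∀ m ∈ M, 0 ≤ wt m) → ∑ m ∈ M, wt m = 1 →
  (∀ N, N₀ ≤ N → ∑ m ∈ M.filter (fun m => bad (N / 2 ^ (m + 1))), wt m ≤ ρ / 4) →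
  Bd (ind bad) ρ

/-- VBK: many bad windows give a slowly varying sign (natural density; the sign is
`Pool.Agent.H28.MCL.lc` for a suitable offset). -/
def T_VBK : Prop := ∀ (f : ℕ → ℝ) (κ δ : ℝ) (Q c : ℕ), (∀ n, f n = 1 ∨ f n = -1) → 0 < κ →
  0 < δ → 0 < Q → ∃ h₁ : ℕ, ∀ h, h₁ ≤ h → ∃ X₀ : ℕ, ∀ X, X₀ ≤ X →
    Av (ind (Bad f κ Q c h)) δ X → ∃ τ : ℕ → ℤ, Nv f Q c (δ / 2) (κ / Q) (4 / h) X τ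

/-- VGL: gluing. -/
def T_VGL : Prop := ∀ (f : ℕ → ℝ) (Q c : ℕ) (δ θ : ℝ) (M : Finset ℕ) (G : Finset ℕ → Prop),
  0 ≤ δ → 0 ≤ θ →
  (∀ i N₀ : ℕ, ∃ N, N₀ ≤ N ∧ ∃ B ⊆ M, G B ∧ ∀ m ∈ B, ∃ τ : ℕ → ℤ,
    Nv f Q c δ θ (1 / ((i : ℝ) + 1)) (N / 2 ^ (m + 1)) τ) →
  ∃ (U : Ultrafilter ℕ) (N : ℕ → ℕ) (B : Finset ℕ) (τ : ℕ → ℕ → ℤ), B ⊆ M ∧ G B ∧
    Gl f Q c δ θ B U N τ

/-- VST: the relation with signs for the primes, from the glued signs: `σ p y` is `± τ m (y / p)`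
for `p` in `Pset Q m`, `m ∈ B`. -/
def T_VST : Prop := ∀ (k Q c : ℕ) (β : Fin k → ℕ) (δ η : ℝ) (B : Finset ℕ) (U : Ultrafilter ℕ)
  (N : ℕ → ℕ) (τ : ℕ → ℕ → ℤ), 0 < Q → 0 ≤ δ → 0 ≤ η →
  Gl (fun y => ∏ i, lam (y + β i)) Q c δ (η / Q) B U N τ →
  ∃ σ : ℕ → ℕ → ℤ, WH k (δ / 2) η Q c β B U N σ

/-- TLB: the local gap for products of values of the Liouville function, at almost all `N`. -/
def T_TLB : Prop := ∃ c₁ : ℝ, 0 < c₁ ∧ ∀ (k Q c : ℕ) (β : Fin k → ℕ) (δ ρ : ℝ), 0 < k →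
  0 < Q → Even Q → Function.Injective β → 0 < δ → δ ≤ 1 → 0 < ρ → ∃ h₀ : ℕ, ∀ h, h₀ ≤ h →
    Bd (ind (Av (ind (Bad (fun y => ∏ i, lam (y + β i)) (c₁ * δ ^ 2) Q c h)) δ)) ρ

/-- the local statement, from the failure analysis -/
theorem locW (hS : T_VSY) (h1 : T_VR1) (h2 : T_VR2) (hC : T_VCT) (hE : Cx → False) :
    ∀ (k : ℕ) (δ : ℝ), 0 < k → 0 < δ → δ ≤ 1 → LocW k δ (κ₀ * δ ^ 2 / 1024) := by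
  intro k δ hk hδ hδ1
  by_contra hnot
  have hη : 0 < κ₀ * δ ^ 2 / 1024 := by unfold κ₀; positivity
  obtain ⟨k, rfl⟩ : ∃ j, k = j + 1 := ⟨k - 1, by omega⟩
  obtain ⟨Q, hQ, c, β, ρ, m, af, P, hQe, hβ, hρ, hP⟩ := hS (k + 1) δ _ hδ hδ1 hη hnot
  obtain ⟨κ, hκ, hdis, hae⟩ := h1 Q (k + 1) β c δ _ ρ m af P hP
  obtain ⟨ω, hω, hfr⟩ := h2 Q (k + 1) β c δ _ ρ m af P hδ hδ1 hη hρ hP κ hκ hdis
    (hae.mono fun ω h => ⟨h.1, h.2.2.1⟩)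
    {ω | Ergodic (shM Q) (κ ω) ∧ (∀ W, 0 < W → (κ ω)[DD Q | Inv (shM Q) W] =ᵐ[κ ω] 0) ∧
      (∀ w i, κ ω (FC Q w i) = 0) ∧ ∀ p : ℕ, p.Prime → p ≡ 1 [MOD Q] → κ ω (SC Q p) = 0} hae
  have hpr : IsProbabilityMeasure (κ ω) := inferInstance
  obtain ⟨cx⟩ := hC Q k β c δ _ m (κ ω) hQe hβ hδ hδ1 hη (by linarith) hpr hω.1 hω.2.1
    hω.2.2.1 hω.2.2.2 hP.mi hfr
  exact hE cx

end Pool.Agent.H24.BZ
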