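import Pool.Agent.H24.UG.UNC
import Pool.Agent.H24.BZ.Targets

/-!
Project BZ (`MP_c59857_nt`), row VNC: the atoms which decouple, for all the scales at once.
-/

set_option autoImplicit false

open Filter Topology Finset
open scoped Nat

namespace Pool.Agent.H24.BZ

open Pool.Agent.H24.MR (lam FinAddInv)
open Pool.Agent.H24.T2 (Pset rel MRprop fa_fiber fa_cond fa_null_mono fa_null_biUnion)
open Pool.Agent.H59.MR (fai_mono fai_empty)
open Pool.Agent.H24.UG

theorem pf_VNC (hs : T_UNS) (ha : T_UNA) : T_VNC := by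
  classical
  intro k Q c β ρ w i hQ hρ
  obtain ⟨M, wt, hM, hwt, hB⟩ := hs Q k β ρ w i hQ hρ
  refine ⟨M, wt, hM, hwt, fun μ σ hμ hval hcst => ?_⟩
  have hQR : (0 : ℝ) < Q := by exact_mod_cast hQ
  obtain ⟨F, hF⟩ : ∃ F : Finset ℕ, F = M.biUnion (fun m => Pset (Q * w !) m) := ⟨_, rfl⟩
  have hFp : ∀ p ∈ F, p.Prime ∧ p ≡ 1 [MOD Q] := by
    intro p hp
    rw [hF, mem_biUnion] at hp
    obtain ⟨m, _, hp⟩ := hp
    unfold Pset at hp
    rw [mem_filter] at hp
    exact ⟨hp.2.1, hp.2.2.of_dvd (Dvd.intro _ rfl)⟩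
  obtain ⟨f, hfd⟩ : ∃ f : ℕ → (F → SignType), ∀ y p, f y p = SignType.sign (σ p y) :=
    ⟨fun y p => SignType.sign (σ p y), fun _ _ => rfl⟩
  have hf : μ {y | f y ≠ f (y + 1)} = 0 := by
    have h1 := fa_null_biUnion hμ F (fun p => {y | σ p y ≠ σ p (y + 1)}) fun p hp =>
      hcst p (hFp p hp).1 (hFp p hp).2
    refine fa_null_mono hμ ?_ h1
    intro y hy
    by_contra hcon
    apply hy
    funext p
    rw [hfd, hfd]
    by_contra hne
    apply hcon
    refine ⟨p, p.2, fun h2 => hne ?_⟩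
    rw [h2]
  obtain ⟨hsum, hfa⟩ := ha μ (F → SignType) f hμ hf
  obtain ⟨a, had⟩ : ∃ a : (F → SignType) → ℝ, ∀ v, a v = μ (f ⁻¹' {v}) := ⟨_, fun _ => rfl⟩
  have ha0 : ∀ v, 0 ≤ a v := fun v => by rw [had]; exact hμ.nonneg _
  have ha1 : ∑ v, a v = 1 := by
    have h1 := hsum Set.univ
    rw [hμ.univ] at h1
    rw [h1]
    refine sum_congr rfl fun v _ => ?_
    rw [had, Set.univ_inter]
  obtain ⟨ν, hνd⟩ : ∃ ν : (F → SignType) → Set ℕ → ℝ, ∀ v A, ν v A = μ (A ∩ f ⁻¹' {v}) / a v :=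
    ⟨_, fun _ _ => rfl⟩
  have hνf : ∀ v, 0 < a v → FinAddInv (ν v) := by
    intro v hv
    have h1 : ν v = fun A => μ (A ∩ f ⁻¹' {v}) / μ (f ⁻¹' {v}) := by
      funext A
      rw [hνd, had]
    rw [h1]
    exact hfa v (by rw [← had]; exact hv)
  have hνa : ∀ v A, a v * ν v A = μ (A ∩ f ⁻¹' {v}) := by
    intro v A
    rw [hνd]
    rcases (ha0 v).eq_or_lt with h0 | h0
    · rw [← h0, zero_mul]
      symm
      refine fa_null_mono hμ (Set.inter_subset_right) ?_
      rw [← had, ← h0]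
    · rw [mul_div_cancel₀ _ h0.ne']
  -- the bad atoms
  obtain ⟨bad, hbd⟩ : ∃ bad : ℕ → (F → SignType) → Prop,
      ∀ m v, bad m v ↔ (0 < a v ∧ ¬ DecS Q β w i (ν v) m) := ⟨_, fun _ _ => Iff.rfl⟩
  have hwB : ∀ v, ∑ m ∈ M, wt m * (if bad m v then a v else 0) ≤ ρ * a v := by
    intro v
    rcases (ha0 v).eq_or_lt with h0 | h0
    · rw [← h0]
      simp
    · have h1 := hB (ν v) (hνf v h0) (M.filter fun m => bad m v) (filter_subset _ _)
        (fun m hm => ((hbd m v).1 (mem_filter.1 hm).2).2)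
      rw [sum_filter] at h1
      calc ∑ m ∈ M, wt m * (if bad m v then a v else 0)
          = (∑ m ∈ M, if bad m v then wt m else 0) * a v := by
            rw [sum_mul]
            refine sum_congr rfl fun m _ => ?_
            split_ifs <;> ring
        _ ≤ ρ * a v := mul_le_mul_of_nonneg_right h1 h0.le
  have hS : ∑ m ∈ M, wt m * ∑ v, (if bad m v then a v else 0) ≤ ρ := by
    calc ∑ m ∈ M, wt m * ∑ v, (if bad m v then a v else 0)
        = ∑ v, ∑ m ∈ M, wt m * (if bad m v then a v else 0) := by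
          rw [sum_comm]
          refine sum_congr rfl fun m _ => ?_
          rw [mul_sum]
      _ ≤ ∑ v, ρ * a v := sum_le_sum fun v _ => hwB v
      _ = ρ := by rw [← mul_sum, ha1, mul_one]
  refine ⟨fun m y => decide (¬ bad m (f y)), fun m _ => ?_, ?_, fun m hmM => ?_⟩
  · refine fa_null_mono hμ ?_ hf
    intro y hy h1
    apply hy
    show decide (¬ bad m (f y)) = decide (¬ bad m (f (y + 1)))
    rw [h1]
  · refine le_trans (sum_le_sum fun m hm => mul_le_mul_of_nonneg_left ?_ (hM m hm).2.2) hS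
    rw [hsum]
    refine sum_le_sum fun v _ => ?_
    split_ifs with hv
    · rw [had]
      exact fai_mono hμ Set.inter_subset_right
    · refine le_of_eq ?_
      have h1 : {y | decide (¬ bad m (f y)) = false} ∩ f ⁻¹' {v} = ∅ := by
        ext y
        simp only [Set.mem_inter_iff, Set.mem_ofPred_eq, Set.mem_preimage, Set.mem_singleton_iff,
          Set.mem_empty_iff_false, iff_false, not_and]
        intro h1 h2
        rw [h2] at h1
        simp [hv] at h1
      rw [h1, fai_empty hμ]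
  · have hPF : ∀ p ∈ Pset (Q * w !) m, p ∈ F := fun p hp => by
      rw [hF, mem_biUnion]
      exact ⟨m, hmM, hp⟩
    show ∑ p ∈ Pset (Q * w !) m, μ {y | decide (¬ bad m (f y)) = true ∧ σ p y ≠ 0 ∧
      y ≡ c [MOD Q] ∧ rel β lam p y ≠ (σ p y : ℝ)} ≤ _
    -- the signs on the atoms
    obtain ⟨s, hsd⟩ : ∃ s : (F → SignType) → ℕ → ℝ, ∀ v p,
        s v p = if hp : p ∈ F then (((v ⟨p, hp⟩ : SignType) : ℤ) : ℝ) else 0 := ⟨_, fun _ _ => rfl⟩
    have hsv : ∀ v, Sgn (s v) := by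
      intro v p
      rw [hsd]
      split_ifs with hp
      · rcases (v ⟨p, hp⟩) with _ | _ | _
        · left; norm_num
        · right; right; norm_num
        · right; left; norm_num
      · left; rfl
    have hsf : ∀ v, ∀ p ∈ F, ∀ y ∈ f ⁻¹' {v}, s v p = (σ p y : ℝ) := by
      intro v p hp y hy
      have h1 : f y = v := hy
      rw [hsd, dif_pos hp, ← h1, hfd]
      have h2 := sign_val (σ p y) (hval p y)
      rw [h2]
    have key : ∀ v, ∀ p ∈ F, ∀ P : ℕ → Prop,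
        |s v p| * μ ({y | P y ∧ rel β lam p y ≠ s v p} ∩ f ⁻¹' {v}) =
          μ ({y | P y ∧ σ p y ≠ 0 ∧ rel β lam p y ≠ (σ p y : ℝ)} ∩ f ⁻¹' {v}) := by
      intro v p hp P
      rcases eq_or_ne (s v p) 0 with h0 | h0
      · rw [h0, abs_zero, zero_mul]
        symm
        have h1 : {y | P y ∧ σ p y ≠ 0 ∧ rel β lam p y ≠ (σ p y : ℝ)} ∩ f ⁻¹' {v} = ∅ := by
          ext y
          simp only [Set.mem_inter_iff, Set.mem_ofPred_eq, Set.mem_empty_iff_false, iff_false,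
            not_and]
          rintro ⟨_, h2, _⟩ h3
          have h4 := hsf v p hp y h3
          rw [h0] at h4
          apply h2
          exact_mod_cast h4.symm
        rw [h1, fai_empty hμ]
      · have h1 : |s v p| = 1 := by
          rcases hsv v p with h2 | h2 | h2
          · exact absurd h2 h0
          · rw [h2, abs_one]
          · rw [h2, abs_neg, abs_one]
        rw [h1, one_mul]
        congr 1
        ext y
        simp only [Set.mem_inter_iff, Set.mem_ofPred_eq]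
        constructor
        · rintro ⟨⟨h2, h3⟩, h4⟩
          have h5 := hsf v p hp y h4
          refine ⟨⟨h2, ?_, by rw [← h5]; exact h3⟩, h4⟩
          intro h6
          apply h0
          rw [h5, h6]
          norm_num
        · rintro ⟨⟨h2, _, h3⟩, h4⟩
          have h5 := hsf v p hp y h4
          exact ⟨⟨h2, by rw [h5]; exact h3⟩, h4⟩
    -- the sum over the atoms
    obtain ⟨C, hC⟩ : ∃ C : ℝ, C = 2 / (((i : ℝ) + 1) * Q) * (Pset (Q * w !) m).card := ⟨_, rfl⟩
    obtain ⟨N, hN⟩ : ∃ N : ℝ, N = ((Pset (Q * w !) m).card : ℝ) := ⟨_, rfl⟩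
    have hN0 : 0 ≤ N := by rw [hN]; exact Nat.cast_nonneg _
    have hCN : C = 2 / (((i : ℝ) + 1) * Q) * N := by rw [hC, hN]
    have hC0 : 0 ≤ C := by rw [hCN]; positivity
    have hatom : ∀ v, ∑ p ∈ Pset (Q * w !) m,
        μ ({y | decide (¬ bad m (f y)) = true ∧ σ p y ≠ 0 ∧ y ≡ c [MOD Q] ∧
          rel β lam p y ≠ (σ p y : ℝ)} ∩ f ⁻¹' {v}) ≤
        10 * ∑ p ∈ Pset (Q * w !) m, p * μ ({y | y ≡ c [MOD Q] ∧ p ∣ y ∧ σ p y ≠ 0 ∧
          rel β lam p y ≠ (σ p y : ℝ)} ∩ f ⁻¹' {v}) + C * a v := by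
      intro v
      have hR0 : 0 ≤ 10 * ∑ p ∈ Pset (Q * w !) m, (p : ℝ) * μ ({y | y ≡ c [MOD Q] ∧ p ∣ y ∧
          σ p y ≠ 0 ∧ rel β lam p y ≠ (σ p y : ℝ)} ∩ f ⁻¹' {v}) :=
        mul_nonneg (by norm_num) (sum_nonneg fun p _ =>
          mul_nonneg (Nat.cast_nonneg _) (hμ.nonneg _))
      by_cases hv : bad m v
      · have h1 : ∀ p ∈ Pset (Q * w !) m,
            μ ({y | decide (¬ bad m (f y)) = true ∧ σ p y ≠ 0 ∧ y ≡ c [MOD Q] ∧
            rel β lam p y ≠ (σ p y : ℝ)} ∩ f ⁻¹' {v}) = 0 := by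
          intro p _
          have h2 : {y | decide (¬ bad m (f y)) = true ∧ σ p y ≠ 0 ∧ y ≡ c [MOD Q] ∧
            rel β lam p y ≠ (σ p y : ℝ)} ∩ f ⁻¹' {v} = ∅ := by
            ext y
            simp only [Set.mem_inter_iff, Set.mem_ofPred_eq, Set.mem_preimage,
              Set.mem_singleton_iff, Set.mem_empty_iff_false, iff_false, not_and]
            rintro ⟨h3, _⟩ h4
            rw [h4] at h3
            simp [hv] at h3
          rw [h2, fai_empty hμ]
        rw [sum_eq_zero h1]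
        have := mul_nonneg hC0 (ha0 v)
        linarith
      rcases (ha0 v).eq_or_lt with h0 | h0
      · have h1 : ∀ p ∈ Pset (Q * w !) m,
            μ ({y | decide (¬ bad m (f y)) = true ∧ σ p y ≠ 0 ∧ y ≡ c [MOD Q] ∧
            rel β lam p y ≠ (σ p y : ℝ)} ∩ f ⁻¹' {v}) = 0 := by
          intro p _
          refine fa_null_mono hμ Set.inter_subset_right ?_
          rw [← had, ← h0]
        rw [sum_eq_zero h1]
        have := mul_nonneg hC0 (ha0 v)
        linarith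
      · have hdec : DecS Q β w i (ν v) m := by
          by_contra hno
          exact hv ((hbd m v).2 ⟨h0, hno⟩)
        have h1 := mul_le_mul_of_nonneg_left (hdec c (s v) (hsv v)) h0.le
        rw [← hC] at h1
        have h2 : a v * ∑ p ∈ Pset (Q * w !) m,
            |s v p| * ν v {y | y ≡ c [MOD Q] ∧ rel β lam p y ≠ s v p} =
            ∑ p ∈ Pset (Q * w !) m, μ ({y | y ≡ c [MOD Q] ∧ σ p y ≠ 0 ∧
              rel β lam p y ≠ (σ p y : ℝ)} ∩ f ⁻¹' {v}) := by
          rw [mul_sum]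
          refine sum_congr rfl fun p hp => ?_
          rw [mul_left_comm, hνa, key v p (hPF p hp) (fun y => y ≡ c [MOD Q])]
        have h3 : a v * (10 * ∑ p ∈ Pset (Q * w !) m,
            |s v p| * (p * ν v {y | y ≡ c [MOD Q] ∧ p ∣ y ∧ rel β lam p y ≠ s v p})) =
            10 * ∑ p ∈ Pset (Q * w !) m, p * μ ({y | y ≡ c [MOD Q] ∧ p ∣ y ∧ σ p y ≠ 0 ∧
              rel β lam p y ≠ (σ p y : ℝ)} ∩ f ⁻¹' {v}) := by
          rw [mul_left_comm, mul_sum]
          congr 1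
          refine sum_congr rfl fun p hp => ?_
          have h4 := key v p (hPF p hp) (fun y => y ≡ c [MOD Q] ∧ p ∣ y)
          simp only [and_assoc] at h4
          rw [← h4, ← hνa]
          ring
        rw [mul_add, h2, h3] at h1
        refine le_trans (sum_le_sum fun p _ => fai_mono hμ ?_) (h1.trans (le_of_eq (by ring)))
        rintro y ⟨⟨_, h5, h6, h7⟩, h8⟩
        exact ⟨⟨h6, h5, h7⟩, h8⟩
    have h1 : ∑ p ∈ Pset (Q * w !) m,
        μ {y | decide (¬ bad m (f y)) = true ∧ σ p y ≠ 0 ∧ y ≡ c [MOD Q] ∧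
          rel β lam p y ≠ (σ p y : ℝ)} =
        ∑ v, ∑ p ∈ Pset (Q * w !) m,
          μ ({y | decide (¬ bad m (f y)) = true ∧ σ p y ≠ 0 ∧ y ≡ c [MOD Q] ∧
          rel β lam p y ≠ (σ p y : ℝ)} ∩ f ⁻¹' {v}) := by
      rw [sum_comm]
      exact sum_congr rfl fun p _ => hsum _
    have h2 : ∑ v, (10 * ∑ p ∈ Pset (Q * w !) m, (p : ℝ) * μ ({y | y ≡ c [MOD Q] ∧ p ∣ y ∧
          σ p y ≠ 0 ∧ rel β lam p y ≠ (σ p y : ℝ)} ∩ f ⁻¹' {v}) + C * a v) =
        10 * ∑ p ∈ Pset (Q * w !) m, (p : ℝ) * μ {y | y ≡ c [MOD Q] ∧ p ∣ y ∧ σ p y ≠ 0 ∧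
          rel β lam p y ≠ (σ p y : ℝ)} + C := by
      rw [sum_add_distrib, ← mul_sum, ← mul_sum, ha1, mul_one, sum_comm]
      congr 2
      refine sum_congr rfl fun p _ => ?_
      rw [← mul_sum, ← hsum]
    rw [h1]
    refine (sum_le_sum fun v _ => hatom v).trans ?_
    rw [h2, hC]

end Pool.Agent.H24.BZ
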