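import Pool.Agent.H6.UG.UR1
import Pool.Agent.H24.BZ.Targets

/-!
Project BZ (`MP_c59857_nt`), row VR1: ergodic components of the symbolic system.
-/

set_option autoImplicit false

open MeasureTheory ProbabilityTheory Filter Topology Finset
open scoped Nat ENNReal

namespace Pool.Agent.H24.BZ

open Pool.Agent.H24.UG
open Pool.Agent.H67.AG (Inv)
open Pool.Agent.H80.AG (sg)
open Pool.Agent.H78.AG (er1G er1G_countable er1G_mp er1_ergodic)
open Pool.Agent.H6.UG (meas_FC meas_SC ae_null)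

theorem pf_VR1 (hM : Pool.Agent.H80.AG.T_MRC) : T_VR1 := by
  intro Q n _ β c δ η ρ m af P hS
  have := hS.prob
  obtain ⟨κ, hκ, hB, hae⟩ := Pool.Agent.H84.B.erg (Om Q) P (er1G (shM Q)) hS.prob
    (er1G_countable _) ⟨0, by simp; rfl⟩
    (by
      rintro g ⟨a, ha⟩ h ⟨b, hb⟩
      refine ⟨b + a, ?_⟩
      rw [zpow_add, ← ha, ← hb]
      rfl)
    (by
      rintro g ⟨a, ha⟩
      refine ⟨-a, ?_⟩
      rw [zpow_neg, ← ha]
      rfl)
    (fun g hg => er1G_mp (shM Q) P hS.inv g hg)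
  have := hκ
  refine ⟨κ, hκ, hB, ?_⟩
  have hmp : ∀ᵐ ω ∂P, MeasurePreserving (shM Q) (κ ω) (κ ω) := by
    filter_upwards [hae] with ω hω
    exact hω.1 (shM Q) ⟨1, by simp⟩
  have hDm : Measurable (DD Q) := by
    have h1 : Measurable fun ω : Om Q => ω.1 0 := (measurable_pi_apply 0).comp measurable_fst
    exact (measurable_of_countable sg).comp h1
  have hD1 : ∀ ω : Om Q, DD Q ω = 1 ∨ DD Q ω = -1 := by
    intro ω
    unfold DD sg
    cases ω.1 0 <;> simp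
  have hall : ∀ᵐ ω ∂P, ∀ W : ℕ, 0 < W → (κ ω)[DD Q | Inv (shM Q) W] =ᵐ[κ ω] 0 := by
    rw [ae_all_iff]
    intro W
    by_cases hW : 0 < W
    · filter_upwards [hM (Om Q) P (shM Q) κ (DD Q) W hDm hD1 hW hB hmp (hS.mr W hW)] with ω hω _
      exact hω
    · exact Filter.Eventually.of_forall fun ω h => absurd h hW
  have hFC : ∀ᵐ ω ∂P, ∀ w i : ℕ, κ ω (FC Q w i) = 0 := by
    rw [ae_all_iff]
    intro w
    rw [ae_all_iff]
    intro i
    exact ae_null P κ hB _ (meas_FC Q w i) (hS.flag w i)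
  have hSC : ∀ᵐ ω ∂P, ∀ p : ℕ, p.Prime → p ≡ 1 [MOD Q] → κ ω (SC Q p) = 0 := by
    rw [ae_all_iff]
    intro p
    by_cases hp : p.Prime ∧ p ≡ 1 [MOD Q]
    · filter_upwards [ae_null P κ hB _ (meas_SC Q p) (hS.sign p hp.1 hp.2)] with ω hω _ _
      exact hω
    · exact Filter.Eventually.of_forall fun ω h1 h2 => absurd ⟨h1, h2⟩ hp
  filter_upwards [hae, hall, hFC, hSC] with ω h1 h2 h3 h4
  exact ⟨er1_ergodic (shM Q) (κ ω) h1.1 h1.2, h2, h3, h4⟩

end Pool.Agent.H24.BZ
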