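import Pool.Agent.H78.UG.UR2
import Pool.Agent.H24.BZ.Targets

/-!
Project BZ (`MP_c59857_nt`), row VR2: a component with many signs on which the relation holds.
-/

set_option autoImplicit false

open MeasureTheory ProbabilityTheory Filter Topology Finset
open scoped Nat ENNReal

namespace Pool.Agent.H24.BZ

open Pool.Agent.H24.T2 (Pset rel)
open Pool.Agent.H80.AG (sg)
open Pool.Agent.H49.AG (er2_lim er2_meas)
open Pool.Agent.H24.UG
open Pool.Agent.H78.UG (ur2_flm ur2_snm ur2_rsm)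

/-- the measure of the good components -/
theorem vr2_one {Ω : Type} [MeasurableSpace Ω] (P : Measure Ω) [IsProbabilityMeasure P]
    (s : Finset ℕ) (hs : s.Nonempty) (δ R a t : ℝ) (hδ : 0 < δ) (hR : 0 < R) (ha : 0 < a)
    (ht : t ≤ δ * R / 2) (κ : Kernel Ω Ω)
    [IsMarkovKernel κ] (hκ : ∀ B, MeasurableSet B → P B = ∫⁻ ω, κ ω B ∂P) (A B : ℕ → Set Ω)
    (F : Set Ω) (hAm : ∀ p, MeasurableSet (A p)) (hBm : ∀ p, MeasurableSet (B p))
    (hFm : MeasurableSet F) (hAF : ∀ p, A p ⊆ F)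
    (h01 : ∀ᵐ ω ∂P, (κ ω).real F = 0 ∨ (κ ω).real F = 1) (hF : P.real F ≤ a)
    (hA : 3 / 4 * δ * a * s.card ≤ ∑ p ∈ s, P.real (A p))
    (hB : ∑ p ∈ s, P.real (B p) ≤ 12 * R * ∑ p ∈ s, P.real (A p) + t * s.card * a) :
    δ * a / 4 ≤ P.real {ω | δ / 4 * s.card ≤ ∑ p ∈ s, (κ ω).real (A p) ∧
      ∑ p ∈ s, (κ ω).real (B p) ≤ 40 * R * ∑ p ∈ s, (κ ω).real (A p)} := by
  have hc : (0 : ℝ) < s.card := by exact_mod_cast hs.card_pos
  have hreal : ∀ C, MeasurableSet C → ∫ ω, (κ ω).real C ∂P = P.real C := by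
    intro C hC
    have h1 : ∫ ω, (κ ω).real C ∂P = (∫⁻ ω, κ ω C ∂P).toReal := by
      refine integral_toReal (κ.measurable_coe hC).aemeasurable ?_
      exact Filter.Eventually.of_forall fun ω => measure_lt_top _ _
    rw [h1, ← hκ C hC]
    rfl
  have hint : ∀ C, MeasurableSet C → Integrable (fun ω => (κ ω).real C) P := by
    intro C hC
    refine Integrable.of_bound (κ.measurable_coe hC).ennreal_toReal.aestronglyMeasurable 1 ?_
    refine Filter.Eventually.of_forall fun ω => ?_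
    rw [Real.norm_eq_abs, abs_of_nonneg measureReal_nonneg]
    exact measureReal_le_one
  have hmeas : ∀ C : ℕ → Set Ω, (∀ p, MeasurableSet (C p)) →
      Measurable fun ω => ∑ p ∈ s, (κ ω).real (C p) := fun C hC =>
    Finset.measurable_sum _ fun p _ => (κ.measurable_coe (hC p)).ennreal_toReal
  have hsum : ∀ C : ℕ → Set Ω, (∀ p, MeasurableSet (C p)) →
      Integrable (fun ω => ∑ p ∈ s, (κ ω).real (C p)) P ∧
      ∫ ω, ∑ p ∈ s, (κ ω).real (C p) ∂P = ∑ p ∈ s, P.real (C p) := by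
    intro C hC
    refine ⟨integrable_finsetSum _ fun p _ => hint _ (hC p), ?_⟩
    rw [integral_finsetSum _ fun p _ => hint _ (hC p)]
    exact Finset.sum_congr rfl fun p _ => hreal _ (hC p)
  obtain ⟨f, hf⟩ : ∃ f : Ω → ℝ, f = fun ω => ∑ p ∈ s, (κ ω).real (A p) := ⟨_, rfl⟩
  obtain ⟨g, hg⟩ : ∃ g : Ω → ℝ, g = fun ω => ∑ p ∈ s, (κ ω).real (B p) := ⟨_, rfl⟩
  obtain ⟨hfi, hfv⟩ := hsum A hAm
  obtain ⟨hgi, hgv⟩ := hsum B hBm
  rw [← hf] at hfi
  rw [← hg] at hgi
  have hfv' : ∫ ω, f ω ∂P = ∑ p ∈ s, P.real (A p) := by rw [hf]; exact hfv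
  have hgv' : ∫ ω, g ω ∂P = ∑ p ∈ s, P.real (B p) := by rw [hg]; exact hgv
  have hfm : Measurable f := by rw [hf]; exact hmeas A hAm
  have hgm : Measurable g := by rw [hg]; exact hmeas B hBm
  obtain ⟨G, hG⟩ : ∃ G : Set Ω, G = {ω | δ / 4 * s.card ≤ f ω ∧ g ω ≤ 40 * R * f ω} := ⟨_, rfl⟩
  have hGm : MeasurableSet G := by
    rw [hG]
    exact (measurableSet_le measurable_const hfm).inter (measurableSet_le hgm (hfm.const_mul _))
  have hgoal : {ω | δ / 4 * s.card ≤ ∑ p ∈ s, (κ ω).real (A p) ∧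
      ∑ p ∈ s, (κ ω).real (B p) ≤ 40 * R * ∑ p ∈ s, (κ ω).real (A p)} = G := by
    rw [hG, hf, hg]
  rw [hgoal]
  have hpt : ∀ᵐ ω ∂P, 40 * R * f ω - g ω ≤
      G.indicator (fun _ => 40 * R * (s.card : ℝ)) ω + 10 * R * δ * s.card * (κ ω).real F := by
    filter_upwards [h01] with ω hω
    have hfc : f ω ≤ s.card * (κ ω).real F := by
      rw [hf]
      have h1 := Finset.sum_le_card_nsmul s (fun p => (κ ω).real (A p)) ((κ ω).real F)
        fun p _ => measureReal_mono (hAF p) (measure_ne_top _ _)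
      simpa using h1
    have hg0 : 0 ≤ g ω := by
      rw [hg]
      exact Finset.sum_nonneg fun p _ => measureReal_nonneg
    have hF0 : 0 ≤ (κ ω).real F := measureReal_nonneg
    have hF1 : (κ ω).real F ≤ 1 := measureReal_le_one
    have hD0 : 0 ≤ 10 * R * δ * s.card * (κ ω).real F := by positivity
    by_cases hωG : ω ∈ G
    · rw [Set.indicator_of_mem hωG]
      have h1 : f ω ≤ s.card := hfc.trans (mul_le_of_le_one_right hc.le hF1)
      have h2 : 40 * R * f ω ≤ 40 * R * s.card := mul_le_mul_of_nonneg_left h1 (by positivity)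
      linarith
    · rw [Set.indicator_of_notMem hωG, zero_add]
      by_cases h1 : δ / 4 * s.card ≤ f ω
      · have h2 : 40 * R * f ω < g ω := by
          by_contra h3
          rw [hG] at hωG
          exact hωG ⟨h1, not_lt.1 h3⟩
        linarith
      · push Not at h1
        rcases hω with h2 | h2
        · rw [h2, mul_zero] at hfc
          have h3 : 40 * R * f ω ≤ 0 := mul_nonpos_of_nonneg_of_nonpos (by positivity) hfc
          linarith
        · rw [h2, mul_one]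
          have h3 : 40 * R * f ω ≤ 40 * R * (δ / 4 * s.card) :=
            mul_le_mul_of_nonneg_left h1.le (by positivity)
          have h4 : 40 * R * (δ / 4 * s.card) = 10 * R * δ * s.card := by ring
          linarith
  have hi1 : Integrable (fun ω => 40 * R * f ω - g ω) P := (hfi.const_mul _).sub hgi
  have hi2 : Integrable (fun ω => G.indicator (fun _ => 40 * R * (s.card : ℝ)) ω +
      10 * R * δ * s.card * (κ ω).real F) P :=
    ((integrable_const _).indicator hGm).add ((hint F hFm).const_mul _)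
  have hI := integral_mono_ae hi1 hi2 hpt
  rw [integral_sub (hfi.const_mul _) hgi, integral_const_mul, hfv', hgv',
    integral_add ((integrable_const _).indicator hGm) ((hint F hFm).const_mul _),
    integral_indicator_const _ hGm, integral_const_mul, hreal F hFm, smul_eq_mul] at hI
  have hX : 28 * R * (3 / 4 * δ * a * s.card) ≤ 28 * R * ∑ p ∈ s, P.real (A p) :=
    mul_le_mul_of_nonneg_left hA (by positivity)
  have hY : t * s.card * a ≤ δ * R / 2 * s.card * a :=
    mul_le_mul_of_nonneg_right (mul_le_mul_of_nonneg_right ht hc.le) ha.le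
  have hZ : 10 * R * δ * s.card * P.real F ≤ 10 * R * δ * s.card * a :=
    mul_le_mul_of_nonneg_left hF (by positivity)
  have hW : 40 * R * s.card * (δ * a / 4) ≤ 40 * R * s.card * P.real G := by
    have h1 : 0 ≤ R * δ * a * s.card := by positivity
    nlinarith
  exact le_of_mul_le_mul_left hW (by positivity)

/-- the 0-1 law for the flags -/
theorem vr2_01 {Q : ℕ} [NeZero Q] (w i : ℕ) (ν : Measure (Om Q)) [IsProbabilityMeasure ν]
    (hE : Ergodic (shM Q) ν) (h0 : ν (FC Q w i) = 0) :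
    ν.real (FL Q w i) = 0 ∨ ν.real (FL Q w i) = 1 := by
  have hae : (shM Q) ⁻¹' (FL Q w i) =ᵐ[ν] FL Q w i := by
    have h1 : ∀ᵐ x ∂ν, x ∉ FC Q w i := measure_eq_zero_iff_ae_notMem.1 h0
    filter_upwards [h1] with x hx
    have h2 : (x.2.2 0).1 (w, i) = (x.2.2 1).1 (w, i) := by
      by_contra h3
      exact hx h3
    refine propext ?_
    change ((x.2.2 (0 + 1)).1 (w, i) = true) ↔ ((x.2.2 0).1 (w, i) = true)
    rw [zero_add, h2]
  rcases hE.quasiErgodic.ae_empty_or_univ₀ (ur2_flm w i).nullMeasurableSet hae with h | h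
  · left
    rw [measureReal_congr h, measureReal_empty]
  · right
    rw [measureReal_congr h, probReal_univ]

theorem pf_VR2 : T_VR2 := by
  intro Q n _ β c δ η ρ m af P hδ hδ1 hη hρ hP κ hκM hκ hae S hS
  have hprob := hP.prob
  have hQ : (0 : ℝ) < Q := by exact_mod_cast Nat.pos_of_ne_zero (NeZero.ne Q)
  have hR : 0 < η / Q := by positivity
  set A : ℕ → ℕ → ℕ → Set (Om Q) := fun w i p => FL Q w i ∩ SN Q p with hA
  set B : ℕ → ℕ → ℕ → Set (Om Q) := fun w i p => FL Q w i ∩ RS Q β c p with hB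
  have hAm : ∀ w i p, MeasurableSet (A w i p) := fun w i p => (ur2_flm w i).inter (ur2_snm p)
  have hBm : ∀ w i p, MeasurableSet (B w i p) := fun w i p =>
    (ur2_flm w i).inter (ur2_rsm β c p)
  set E : ℕ → ℕ → Set (Om Q) := fun w i =>
    {ω | δ / 4 * (Pset (Q * w !) (m w i)).card ≤
        ∑ p ∈ Pset (Q * w !) (m w i), (κ ω).real (A w i p) ∧
      ∑ p ∈ Pset (Q * w !) (m w i), (κ ω).real (B w i p) ≤
        40 * (η / Q) * ∑ p ∈ Pset (Q * w !) (m w i), (κ ω).real (A w i p)} with hE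
  have hEm : ∀ w i, MeasurableSet (E w i) := by
    intro w i
    have hm1 : Measurable fun ω : Om Q =>
        ∑ p ∈ Pset (Q * w !) (m w i), (κ ω).real (A w i p) :=
      Finset.measurable_sum _ fun p _ => (κ.measurable_coe (hAm w i p)).ennreal_toReal
    have hm2 : Measurable fun ω : Om Q =>
        ∑ p ∈ Pset (Q * w !) (m w i), (κ ω).real (B w i p) :=
      Finset.measurable_sum _ fun p _ => (κ.measurable_coe (hBm w i p)).ennreal_toReal
    exact (measurableSet_le measurable_const hm1).inter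
      (measurableSet_le hm2 (hm1.const_mul _))
  obtain ⟨i₀, hi₀⟩ : ∃ i₀ : ℕ, ∀ i, i₀ ≤ i → 2 / ((i : ℝ) + 1) ≤ η * δ / 2 := by
    have hηδ : 0 < η * δ / 2 := by positivity
    obtain ⟨i₀, hi₀⟩ := exists_nat_gt (2 / (η * δ / 2))
    refine ⟨i₀, fun i hi => ?_⟩
    have h1 : (i₀ : ℝ) ≤ i := by exact_mod_cast hi
    rw [div_le_iff₀ (by positivity)]
    rw [div_lt_iff₀ hηδ] at hi₀
    nlinarith
  have hEP : ∀ w i, i₀ ≤ i → δ * ρ / 4 ≤ P.real (E w i) := by
    intro w i hi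
    obtain ⟨haf, haf1⟩ := hP.af0 w i
    have hafp : 0 < af w i := lt_of_lt_of_le hρ haf
    have h1 : δ * ρ / 4 ≤ δ * af w i / 4 := by
      have := mul_le_mul_of_nonneg_left haf hδ.le
      linarith
    refine h1.trans ?_
    refine vr2_one P (Pset (Q * w !) (m w i)) (hP.mi w i).2 δ (η / Q) (af w i)
      (2 / (((i : ℝ) + 1) * Q)) hδ hR hafp ?_ κ hκ (A w i) (B w i) (FL Q w i)
      (hAm w i) (hBm w i) (ur2_flm w i) (fun p => Set.inter_subset_left) ?_ (hP.up w i) ?_ ?_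
    · have h2 := hi₀ i hi
      have h3 : 2 / (((i : ℝ) + 1) * Q) = 2 / ((i : ℝ) + 1) / Q := by
        rw [div_div]
      rw [h3]
      calc 2 / ((i : ℝ) + 1) / Q ≤ η * δ / 2 / Q := div_le_div_of_nonneg_right h2 hQ.le
        _ = δ * (η / Q) / 2 := by ring
    · filter_upwards [hae] with ω hω
      exact vr2_01 w i (κ ω) hω.1 (hω.2 w i)
    · have h2 := Finset.card_nsmul_le_sum _ _ _ (hP.dense w i)
      rw [nsmul_eq_mul] at h2
      have h3 : 3 / 4 * δ * af w i * ((Pset (Q * w !) (m w i)).card : ℝ) =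
          ((Pset (Q * w !) (m w i)).card : ℝ) * (3 / 4 * δ * af w i) := by ring
      rw [h3]
      exact h2
    · refine (hP.relation w i).trans (le_of_eq ?_)
      rw [mul_div_assoc]
  have hd0 : 0 < δ * ρ / 4 := by positivity
  have hF : ∀ w, δ * ρ / 4 ≤ P.real {ω | ∃ᶠ i in atTop, ω ∈ E w i} := fun w =>
    er2_lim P (E w) (hEm w) (δ * ρ / 4) i₀ (hEP w)
  have hFF : δ * ρ / 4 ≤ P.real {ω | ∃ᶠ w in atTop, ω ∈ {ω | ∃ᶠ i in atTop, ω ∈ E w i}} :=
    er2_lim P (fun w => {ω | ∃ᶠ i in atTop, ω ∈ E w i}) (fun w => er2_meas _ (hEm w))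
      (δ * ρ / 4) 0 fun w _ => hF w
  have hpos : P {ω | ∃ᶠ w in atTop, ω ∈ {ω | ∃ᶠ i in atTop, ω ∈ E w i}} ≠ 0 := by
    intro h0
    have h1 : P.real {ω | ∃ᶠ w in atTop, ω ∈ {ω | ∃ᶠ i in atTop, ω ∈ E w i}} = 0 := by
      rw [measureReal_def, h0, ENNReal.toReal_zero]
    rw [h1] at hFF
    linarith
  have hfr : ∃ᶠ ω in ae P, ω ∈ {ω | ∃ᶠ w in atTop, ω ∈ {ω | ∃ᶠ i in atTop, ω ∈ E w i}} :=
    frequently_ae_iff.2 hpos
  obtain ⟨ω, hω, hωS⟩ := (hfr.and_eventually hS).exists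
  refine ⟨ω, hωS, ?_⟩
  refine Filter.Frequently.mono hω fun w hw => ?_
  refine Filter.Frequently.mono hw fun i hi => ?_
  refine ⟨hi.1, hi.2.trans (le_of_eq ?_)⟩
  rw [mul_div_assoc]

end Pool.Agent.H24.BZ
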