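import Pool.Agent.H24.UG.AllU
import Pool.Agent.H24.BZ.VNC
import Pool.Agent.H24.BZ.TLB
import Pool.Agent.H21.BZ.VAR
import Pool.Agent.H33.BZ.VSY
import Pool.Agent.H33.BZ.VGL
import Pool.Agent.H38.BZ.VCT
import Pool.Agent.H41.BZ.VSB
import Pool.Agent.H16.BZ.VBK
import Pool.Agent.H24.BZ.VR1
import Pool.Agent.H24.BZ.VR2
import Pool.Agent.H54.BZ.VST
import Pool.Agent.H41.AG.MMX
import Pool.Agent.H66.AG.UNI

/-!
Project BZ (`MP_c59857_nt`): the local gap for almost all `N`, closed.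
-/

set_option autoImplicit false

namespace Pool.Agent.H24.BZ.All

open Pool.Agent.H24.BZ
open Pool.Agent.H67.AG (κ₀)

theorem v_VNC : T_VNC := pf_VNC Pool.Agent.H24.UG.AllU.u_UNS Pool.Agent.H24.UG.AllU.u_UNA

theorem v_VAR : T_VAR := Pool.Agent.H21.BZ.pf_VAR v_VNC Pool.Agent.H41.AG.pf_MMX

theorem v_VSY : T_VSY := Pool.Agent.H33.BZ.pf_VSY v_VAR
  (Pool.Agent.H66.AG.pf_UNI Pool.Agent.H50.AG.pf_CPL) Pool.Agent.H24.UG.AllU.u_UPT

theorem v_VR1 : T_VR1 := Pool.Agent.H24.BZ.pf_VR1 Pool.Agent.H50.AG.pf_MRC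

theorem v_VR2 : T_VR2 := Pool.Agent.H24.BZ.pf_VR2

/-- the local statement with weights -/
theorem v_LOC : ∀ (k : ℕ) (δ : ℝ), 0 < k → 0 < δ → δ ≤ 1 → LocW k δ (κ₀ * δ ^ 2 / 1024) :=
  locW v_VSY v_VR1 v_VR2 Pool.Agent.H38.BZ.pf_VCT Pool.Agent.H24.UG.AllU.cx_false

/-- the local gap for products of values of the Liouville function, at almost all `N` -/
theorem tlb : T_TLB :=
  Pool.Agent.H24.BZ.tlb v_LOC Pool.Agent.H41.BZ.pf_VSB Pool.Agent.H16.BZ.pf_VBK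
    Pool.Agent.H33.BZ.pf_VGL Pool.Agent.H54.BZ.pf_VST

end Pool.Agent.H24.BZ.All
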