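import Pool.Agent.H24.UG.T9
import Pool.Agent.H28.MCL.Defs

/-!
Project BZ (`MP_c59857_nt`): a uniform local gap for almost all `N` (Banach density zero).
Definitions.
-/

set_option autoImplicit false

open MeasureTheory ProbabilityTheory Filter Topology Finset
open scoped Nat ENNReal

namespace Pool.Agent.H24.BZ

open Pool.Agent.H24.MR (lam dens FinAddInv)
open Pool.Agent.H24.T2 (Pset rel)
open Pool.Agent.H80.AG (Fam)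
open Pool.Agent.H24.UG (Om shM DD FL SN FC SC RS)

/-! ### the local statement with weights -/

/-- the relation with signs, at the scales in `B`; the errors are small relative to the support
of the sign -/
structure WH (k : ℕ) (δ η : ℝ) (Q c : ℕ) (β : Fin k → ℕ) (B : Finset ℕ) (U : Ultrafilter ℕ)
    (N : ℕ → ℕ) (σ : ℕ → ℕ → ℤ) : Prop where
  hN : Tendsto N (U : Filter ℕ) atTop
  val : ∀ p y, σ p y = 0 ∨ σ p y = 1 ∨ σ p y = -1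
  cst : ∀ p : ℕ, p.Prime → p ≡ 1 [MOD Q] → dens U N {y | σ p y ≠ σ p (y + 1)} = 0
  dns : ∀ m ∈ B, ∀ p ∈ Pset Q m, δ ≤ dens U N {y | σ p y ≠ 0}
  rln : ∀ m ∈ B, ∀ p ∈ Pset Q m,
    dens U N {y | y ≡ c [MOD Q] ∧ p ∣ y ∧ σ p y ≠ 0 ∧ rel β lam p y ≠ (σ p y : ℝ)} ≤
      η / (p * Q) * dens U N {y | σ p y ≠ 0}

/-- the local statement: the relation with signs fails at most scales -/
def LocW (k : ℕ) (δ η : ℝ) : Prop := ∀ (Q c : ℕ) (β : Fin k → ℕ), 0 < Q → Even Q →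
  Function.Injective β → ∀ ρ : ℝ, 0 < ρ →
    ∃ (M : Finset ℕ) (wt : ℕ → ℝ), (∀ m ∈ M, 0 ≤ wt m) ∧ ∑ m ∈ M, wt m = 1 ∧
      ∀ (U : Ultrafilter ℕ) (N : ℕ → ℕ) (σ : ℕ → ℕ → ℤ), ∀ B ⊆ M,
        WH k δ η Q c β B U N σ → ∑ m ∈ B, wt m ≤ ρ

/-- a family of densities with signs `σ` and flags `fl`; `af` is the weight of the members for
which the relation holds at the scale of `(w, i)` -/
structure FamP (Q c : ℕ) {k : ℕ} (β : Fin k → ℕ) (δ η ρ : ℝ) (Mf : ℕ → ℕ → Finset ℕ) (J : ℕ)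
    (F : Fam) (m : ℕ → ℕ → ℕ) (σ : Fin F.n → ℕ → ℕ → ℤ) (fl : Fin F.n → ℕ → ℕ → ℕ → Bool)
    (af : ℕ → ℕ → ℝ) : Prop where
  val : ∀ a p y, σ a p y = 0 ∨ σ a p y = 1 ∨ σ a p y = -1
  cst : ∀ a, ∀ p : ℕ, p.Prime → p ≡ 1 [MOD Q] →
    dens (F.U a) (F.N a) {y | σ a p y ≠ σ a p (y + 1)} = 0
  fcs : ∀ a w i, dens (F.U a) (F.N a) {y | fl a w i y ≠ fl a w i (y + 1)} = 0
  mem : ∀ w ≤ J, ∀ i ≤ J, m w i ∈ Mf w i
  af0 : ∀ w ≤ J, ∀ i ≤ J, ρ ≤ af w i ∧ af w i ≤ 1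
  up : ∀ w ≤ J, ∀ i ≤ J, F.d (fun a => {y | fl a w i y = true}) ≤ af w i
  dense : ∀ w ≤ J, ∀ i ≤ J, ∀ p ∈ Pset (Q * w !) (m w i),
    3 / 4 * δ * af w i ≤ F.d fun a => {y | fl a w i y = true ∧ σ a p y ≠ 0}
  relation : ∀ w ≤ J, ∀ i ≤ J, ∑ p ∈ Pset (Q * w !) (m w i),
    F.d (fun a => {y | fl a w i y = true ∧ σ a p y ≠ 0 ∧ y ≡ c [MOD Q] ∧
      rel β lam p y ≠ (σ a p y : ℝ)}) ≤
      12 * η / Q * ∑ p ∈ Pset (Q * w !) (m w i), F.d (fun a => {y | fl a w i y = true ∧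
        σ a p y ≠ 0}) + 2 / (((i : ℝ) + 1) * Q) * (Pset (Q * w !) (m w i)).card * af w i

/-- the measure on the symbolic space which comes from a failure of the local statement -/
structure SysW (Q : ℕ) [NeZero Q] {n : ℕ} (β : Fin n → ℕ) (c : ZMod Q) (δ η ρ : ℝ)
    (m : ℕ → ℕ → ℕ) (af : ℕ → ℕ → ℝ) (P : Measure (Om Q)) : Prop where
  prob : IsProbabilityMeasure P
  inv : MeasurePreserving (shM Q) P P
  mi : ∀ w i, i ≤ m w i ∧ (Pset (Q * w !) (m w i)).Nonempty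
  flag : ∀ w i, P (FC Q w i) = 0
  sign : ∀ p : ℕ, p.Prime → p ≡ 1 [MOD Q] → P (SC Q p) = 0
  af0 : ∀ w i, ρ ≤ af w i ∧ af w i ≤ 1
  up : ∀ w i, P.real (FL Q w i) ≤ af w i
  dense : ∀ w i, ∀ p ∈ Pset (Q * w !) (m w i),
    3 / 4 * δ * af w i ≤ P.real (FL Q w i ∩ SN Q p)
  relation : ∀ w i, ∑ p ∈ Pset (Q * w !) (m w i), P.real (FL Q w i ∩ RS Q β c p) ≤
    12 * η / Q * ∑ p ∈ Pset (Q * w !) (m w i), P.real (FL Q w i ∩ SN Q p) +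
      2 / (((i : ℝ) + 1) * Q) * (Pset (Q * w !) (m w i)).card * af w i
  mr : ∀ W : ℕ, 0 < W → ∀ ε : ℝ, 0 < ε → ∃ h₀ : ℕ, ∀ h, h₀ ≤ h →
    P.real {ω | ε * h ≤ |∑ y ∈ range h, DD Q ((shM Q)^[W * y] ω)|} ≤ ε

/-! ### the front end -/

/-- the average of `b` over `[1, N]` is larger than `δ` -/
def Av (b : ℕ → ℝ) (δ : ℝ) (N : ℕ) : Prop := δ * N < ∑ n ∈ Finset.Icc 1 N, b n

/-- data of a level for the counting measure on `[1, X]`: a slowly varying sign `τ` which is the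
value of `f` on most of its support, in the class `c` mod `Q` -/
def Nv (f : ℕ → ℝ) (Q c : ℕ) (δ θ ζ : ℝ) (X : ℕ) (τ : ℕ → ℤ) : Prop :=
  (∀ z, τ z = 0 ∨ τ z = 1 ∨ τ z = -1) ∧
  (((Finset.Icc 1 X).filter (fun z => τ z ≠ τ (z + 1))).card : ℝ) ≤ ζ * X ∧
  δ * X ≤ (((Finset.Icc 1 X).filter (fun z => τ z ≠ 0)).card : ℝ) ∧
  (((Finset.Icc 1 X).filter (fun z => z ≡ c [MOD Q] ∧ τ z ≠ 0 ∧ f z ≠ (τ z : ℝ))).card : ℝ) ≤
    θ * (((Finset.Icc 1 X).filter (fun z => τ z ≠ 0)).card : ℝ)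

/-- the glued signs: `τ m` lives on `[1, N j / 2 ^ (m + 1)]` -/
def Gl (f : ℕ → ℝ) (Q c : ℕ) (δ θ : ℝ) (B : Finset ℕ) (U : Ultrafilter ℕ) (N : ℕ → ℕ)
    (τ : ℕ → ℕ → ℤ) : Prop :=
  Tendsto N (U : Filter ℕ) atTop ∧ (∀ m z, τ m z = 0 ∨ τ m z = 1 ∨ τ m z = -1) ∧
  ∀ m ∈ B, ∀ ζ : ℝ, 0 < ζ → ∀ᶠ j in (U : Filter ℕ),
    (((Finset.Icc 1 (N j / 2 ^ m)).filter (fun z => τ m z ≠ τ m (z + 1))).card : ℝ) ≤
      ζ * N j ∧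
    (δ / 2 ^ (m + 1) - ζ) * N j ≤
      (((Finset.Icc 1 (N j / 2 ^ (m + 1))).filter (fun z => τ m z ≠ 0)).card : ℝ) ∧
    (((Finset.Icc 1 (N j / 2 ^ m)).filter
      (fun z => z ≡ c [MOD Q] ∧ τ m z ≠ 0 ∧ f z ≠ (τ m z : ℝ))).card : ℝ) ≤
      θ * (((Finset.Icc 1 (N j / 2 ^ (m + 1))).filter (fun z => τ m z ≠ 0)).card : ℝ) + ζ * N j

end Pool.Agent.H24.BZ
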